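import Pool.Agent.Results.MP_7e7dde_gt.LindelofNotGrothendieck
import Pool.Agent.Helper220.ForceCH

set_option autoImplicit false
set_option linter.all false

open Set Topology Filter

namespace Pool.Agent.Results.MP_7e7dde_gt.ForcedFailure

open Pool.Agent.Helper220.ForceCH (Om OmegaOnePreserved DiamondHolds CHHolds)

/-- `C` is a closed unbounded subset of `ω₁` (the sentence named by `IsClubName`) -/
def IsClub (C : Om → Prop) : Prop :=
  (∀ a : Om, ∃ b : Om, a < b ∧ C b) ∧
    ∀ a : Om, (∃ b, b < a) → (∀ b : Om, b < a → ∃ c : Om, (b < c ∧ c < a) ∧ C c) → C a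

/-- diamond: the sentence which `DiamondHolds P` says is forced, evaluated in the universe -/
def Diamond : Prop :=
  ∃ A : Om → Om → Prop, ∀ S : Om → Prop, ∀ C : Om → Prop,
    IsClub C → ∃ a : Om, C a ∧ ∀ b : Om, b < a → (S b ↔ A a b)

lemma old_diamond (h : Diamond) : LindelofNotGrothendieck.Diamond := by
  obtain ⟨A, hA⟩ := h
  refine ⟨fun a => {x | x < a ∧ A a x}, fun S E hE => ?_⟩
  obtain ⟨a, ha, hb⟩ := hA (fun x => x ∈ S) (fun x => x ∈ E) ⟨fun b => by
      obtain ⟨a, h1, h2⟩ := hE.1 b
      exact ⟨a, h2, h1⟩, fun a ha h => by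
      refine hE.2 a ha ?_
      intro b hb
      obtain ⟨c, ⟨h1, h2⟩, h3⟩ := h b hb
      exact ⟨c, h3, h1, h2⟩⟩
  refine ⟨a, ha, ?_⟩
  ext x
  constructor
  · rintro ⟨h1, h2⟩
    exact ⟨(hb x h1).2 h2, h1⟩
  · rintro ⟨h1, h2⟩
    exact ⟨h2, (hb x h2).1 h1⟩

/-- Some forcing notion forces diamond (and preserves `ω₁`), and diamond implies that there is a
Lindelöf `ω`-stable space `X` of countable tightness with a continuous image `Y` which is not
Grothendieck. -/
theorem result :
    (∃ (P : Type) (_ : Preorder P), Nonempty P ∧ ∀ p : P,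
      p ∈ OmegaOnePreserved P ∧ p ∈ DiamondHolds P) ∧
    (Diamond → ∃ (X : Type) (_ : TopologicalSpace X) (Y : Type) (_ : TopologicalSpace Y)
      (f : X → Y), T35Space X ∧ LindelofSpace X ∧ LindelofNotGrothendieck.OmegaStable X ∧
      LindelofNotGrothendieck.CountablyTight X ∧ T35Space Y ∧ Continuous f ∧
      Function.Surjective f ∧ ¬ LindelofNotGrothendieck.Grothendieck Y) := by
  constructor
  · obtain ⟨P, hP, hne, h⟩ := Pool.Agent.Helper220.ForceCH.exists_forcing
    exact ⟨P, hP, hne, fun p => ⟨(h p).1, (h p).2.1⟩⟩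
  · intro h
    obtain ⟨f, hcoh, hcov⟩ := LindelofNotGrothendieck.main_core (old_diamond h)
    exact ⟨LindelofNotGrothendieck.XX f, inferInstance, LindelofNotGrothendieck.XX f,
      inferInstance, id, inferInstance, LindelofNotGrothendieck.lindelof_XX hcov,
      LindelofNotGrothendieck.stable_XX hcov, LindelofNotGrothendieck.tight_XX f, inferInstance,
      continuous_id, Function.surjective_id, LindelofNotGrothendieck.notGrothendieck_XX hcoh⟩

end Pool.Agent.Results.MP_7e7dde_gt.ForcedFailure
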