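import Mathlib

set_option autoImplicit false
set_option linter.all false

open Set Topology Filter

namespace Pool.Agent.Results.MP_7e7dde_gt.LindelofNotGrothendieck

/-- the first uncountable ordinal as a type -/
def Om : Type := (Cardinal.aleph 1).ord.ToType

noncomputable instance : LinearOrder Om :=
  inferInstanceAs (LinearOrder (Cardinal.aleph 1).ord.ToType)

instance : WellFoundedLT Om := inferInstanceAs (WellFoundedLT (Cardinal.aleph 1).ord.ToType)

lemma mk_Om : Cardinal.mk Om = Cardinal.aleph 1 := Cardinal.mk_ord_toType _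

lemma countable_Iio (a : Om) : (Iio a).Countable := by
  have h : Cardinal.mk (Iio a) < Cardinal.mk Om :=
    Cardinal.mk_Iio_lt (α := (Cardinal.aleph 1).ord.ToType) a (by simp)
  rw [mk_Om] at h
  rwa [← Cardinal.le_aleph0_iff_set_countable, ← Order.lt_succ_iff, Cardinal.succ_aleph0]

lemma countable_Iic (a : Om) : (Iic a).Countable := by
  rw [← Iio_union_right]
  exact (countable_Iio a).union (countable_singleton a)

instance : Uncountable Om := by
  rw [← not_countable_iff, ← Cardinal.mk_le_aleph0_iff, mk_Om, not_le]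
  exact Cardinal.aleph0_lt_aleph_one

/-- countable sets are bounded -/
lemma bdd_of_countable {A : Set Om} (hA : A.Countable) : ∃ b, ∀ a ∈ A, a < b := by
  by_contra hcon
  push Not at hcon
  have : (univ : Set Om) ⊆ ⋃ a ∈ A, Iic a := by
    intro x _
    obtain ⟨a, ha, hx⟩ := hcon x
    exact mem_biUnion ha hx
  exact not_countable_univ ((hA.biUnion fun a _ => countable_Iic a).mono this)

instance : Nonempty Om := by
  by_contra h
  rw [not_nonempty_iff] at h
  exact not_countable (α := Om) inferInstance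

lemma exists_gt' (a : Om) : ∃ b, a < b := by
  obtain ⟨b, hb⟩ := bdd_of_countable (countable_singleton a)
  exact ⟨b, hb a rfl⟩

/-- `a` is a limit: it is not the least element and not a successor -/
def Lim (a : Om) : Prop := (∃ b, b < a) ∧ ∀ b < a, ∃ c, b < c ∧ c < a

/-- closed unbounded sets -/
def IsClub (E : Set Om) : Prop :=
  (∀ b, ∃ a ∈ E, b < a) ∧ ∀ a, (∃ b, b < a) → (∀ b < a, ∃ c ∈ E, b < c ∧ c < a) → a ∈ E

/-- Jensen's diamond principle -/
def Diamond : Prop :=
  ∃ A : Om → Set Om, ∀ S : Set Om, ∀ E : Set Om, IsClub E → ∃ a ∈ E, A a = S ∩ Iio a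

/-- closure points of a function form a club -/
lemma club_closure (G : Om → Om) : IsClub {a | Lim a ∧ ∀ b < a, G b < a} := by
  constructor
  · intro b0
    have step : ∀ b : Om, ∃ c, b < c ∧ ∀ x ≤ b, G x < c := by
      intro b
      obtain ⟨c, hc⟩ := bdd_of_countable ((countable_singleton b).union ((countable_Iic b).image G))
      exact ⟨c, hc b (Or.inl rfl), fun x hx => hc _ (Or.inr ⟨x, hx, rfl⟩)⟩
    choose nx h1 h2 using step
    let s : ℕ → Om := fun n => nx^[n] b0
    have hs : ∀ n, s (n + 1) = nx (s n) := fun n => Function.iterate_succ_apply' _ _ _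
    have hmono : StrictMono s := strictMono_nat_of_lt_succ fun n => by rw [hs]; exact h1 _
    obtain ⟨c, hc⟩ := bdd_of_countable (countable_range s)
    have hne : {x : Om | ∀ n, s n < x}.Nonempty := ⟨c, fun n => hc _ ⟨n, rfl⟩⟩
    let a := wellFounded_lt.min _ hne
    have ha : ∀ n, s n < a := wellFounded_lt.min_mem _ hne
    have hlt : ∀ x < a, ∃ n, x ≤ s n := by
      intro x hx
      by_contra hcon
      push Not at hcon
      exact wellFounded_lt.not_lt_min {x : Om | ∀ n, s n < x} hcon hx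
    refine ⟨a, ⟨⟨⟨s 0, ha 0⟩, ?_⟩, ?_⟩, ha 0⟩
    · intro b hb
      obtain ⟨n, hn⟩ := hlt b hb
      exact ⟨s (n + 1), hn.trans_lt (hmono (Nat.lt_succ_self n)), ha _⟩
    · intro b hb
      obtain ⟨n, hn⟩ := hlt b hb
      have := h2 (s n) b hn
      rw [← hs] at this
      exact this.trans (ha _)
  · intro a hne ha
    refine ⟨⟨hne, fun b hb => ?_⟩, fun b hb => ?_⟩
    · obtain ⟨c, _, h1, h2⟩ := ha b hb
      exact ⟨c, h1, h2⟩
    · obtain ⟨c, hc, h1, h2⟩ := ha b hb
      exact (hc.2 b h1).trans h2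

/-- recursion along `Om` -/
lemma exists_rec {R : Type} [Inhabited R] (Q : Om → (Om → R) → R → Prop)
    (hloc : ∀ a f f' r, (∀ b < a, f b = f' b) → Q a f r → Q a f' r)
    (hex : ∀ a f, (∀ b < a, Q b f (f b)) → ∃ r, Q a f r) : ∃ f : Om → R, ∀ a, Q a f (f a) := by
  classical
  let tr : (a : Om) → ((b : Om) → b < a → R) → Om → R :=
    fun a p b => if h : b < a then p b h else default
  let F : (a : Om) → ((b : Om) → b < a → R) → R :=
    fun a p => if h : ∃ r, Q a (tr a p) r then h.choose else default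
  let f : Om → R := (wellFounded_lt (α := Om)).fix F
  have hf : ∀ a, f a = F a (fun b _ => f b) := fun a => (wellFounded_lt (α := Om)).fix_eq F a
  refine ⟨f, ?_⟩
  intro a
  refine (wellFounded_lt (α := Om)).induction (C := fun a => Q a f (f a)) a ?_
  intro a ih
  · have htr : ∀ b < a, f b = tr a (fun b _ => f b) b := by
      intro b hb
      simp [tr, hb]
    obtain ⟨r, hr⟩ := hex a f ih
    have h1 : ∃ r, Q a (tr a (fun b _ => f b)) r := ⟨r, hloc a f _ r htr hr⟩
    have h2 : Q a (tr a (fun b _ => f b)) (f a) := by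
      rw [hf a]
      show Q a (tr a (fun b _ => f b)) (dite _ _ _)
      rw [dif_pos h1]
      exact h1.choose_spec
    exact hloc a _ f _ (fun b hb => (htr b hb).symm) h2

/-- the Cantor set -/
abbrev C : Type := ℕ → Bool

/-- the maps `C → C` used for a row: a row at `a` is `fun x => (C → C)` for `x ≤ a` -/
abbrev Row : Type := Om → C → C

/-- the Cantor set can be mapped onto itself so that a finite set is sent outside of a given
proper clopen set -/
lemma cantor_map (Y : Set C) (hY : Y.Finite) (b : C → Bool) (hb : Continuous b)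
    (hne : ∃ x, b x = false) :
    ∃ g : C → C, Continuous g ∧ Function.Surjective g ∧ ∀ y ∈ Y, b (g y) = false := by
  classical
  obtain ⟨z, hz⟩ := hne
  have hinf : (univ : Set C).Infinite := Set.infinite_univ
  obtain ⟨w, hw⟩ : ∃ w : C, w ∉ Y := by
    by_contra hcon
    push Not at hcon
    exact hinf (hY.subset fun x _ => hcon x)
  have hm : ∃ m : ℕ, ∀ y ∈ Y, ∃ i < m, y i ≠ w i := by
    have : ∀ y ∈ Y, ∃ i, y i ≠ w i := by
      intro y hy
      by_contra hcon
      push Not at hcon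
      exact hw (by rw [← funext hcon]; exact hy)
    choose! i hi using this
    refine ⟨hY.toFinset.sup i + 1, fun y hy => ⟨i y, ?_, hi y hy⟩⟩
    have := Finset.le_sup (f := i) (hY.mem_toFinset.2 hy)
    omega
  obtain ⟨m, hm⟩ := hm
  refine ⟨fun x => if (∀ i < m, x i = w i) then (fun j => x (m + j)) else z, ?_, ?_, ?_⟩
  · have hcl : IsClopen {x : C | ∀ i < m, x i = w i} := by
      have : {x : C | ∀ i < m, x i = w i} = ⋂ i ∈ Finset.range m, {x : C | x i = w i} := by
        ext x; simp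
      rw [this]
      refine isClopen_biInter_finset fun i _ => ?_
      exact (isClopen_discrete {w i}).preimage (continuous_apply i)
    refine Continuous.if ?_ ?_ ?_
    · intro x hx
      rw [hcl.frontier_eq] at hx
      exact hx.elim
    · exact continuous_pi fun j => continuous_apply _
    · exact continuous_const
  · intro t
    refine ⟨fun i => if i < m then w i else t (i - m), ?_⟩
    have h1 : ∀ i < m, (fun i => if i < m then w i else t (i - m)) i = w i := by
      intro i hi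
      simp [hi]
    show (if _ then _ else _) = t
    rw [if_pos h1]
    funext j
    simp
  · intro y hy
    have h1 : ¬ ∀ i < m, y i = w i := by
      obtain ⟨i, hi, hne⟩ := hm y hy
      exact fun h => hne (h i hi)
    show b (if _ then _ else _) = false
    rw [if_neg h1]
    exact hz

instance : Countable {b : C → Bool // Continuous b} := by
  have h1 : Countable (TopologicalSpace.Clopens C) :=
    TopologicalSpace.Clopens.countable_iff_secondCountable.2 inferInstance
  refine Function.Injective.countable (β := TopologicalSpace.Clopens C)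
    (f := fun b => ⟨b.1 ⁻¹' {true}, (isClopen_discrete {true}).preimage b.2⟩) ?_
  intro b b' h
  have h2 : b.1 ⁻¹' {true} = b'.1 ⁻¹' {true} := congrArg (fun s : TopologicalSpace.Clopens C => (s : Set C)) h
  apply Subtype.ext
  funext x
  have h3 : b.1 x = true ↔ b'.1 x = true := by
    have := Set.ext_iff.1 h2 x
    simpa using this
  cases hb : b.1 x <;> cases hb' : b'.1 x <;> simp_all

noncomputable instance : TopologicalSpace Om := Preorder.topology Om

instance : OrderTopology Om := ⟨rfl⟩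

/-- `f` is a coherent system below and at `a` -/
def Coh (f : Om → Row) (a : Om) : Prop :=
  (∀ x, Continuous (f a x) ∧ Function.Surjective (f a x)) ∧ f a a = id ∧
    ∀ b < a, ∀ᶠ x in 𝓝[<] b, f a x = f a b ∘ f b x

/-- functions with support in `[0,c]` -/
def Sv (f : Om → Row) (c : Om) : Set (Om × C → Bool) :=
  {v | (∀ x, Continuous fun y => v (x, y)) ∧ (∀ x, ∃ y, v (x, y) = false) ∧
    (∀ x, c < x → ∀ y, v (x, y) = false) ∧
    ∀ b ≤ c, ∀ᶠ x in 𝓝[<] b, ∀ y, v (x, y) = v (b, f b x y)}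

/-- the set of functions whose elements are the points of the space -/
def XX (f : Om → Row) : Set (Om × C → Bool) := ⋃ c, Sv f c

open Classical in
/-- truncation -/
noncomputable def trunc (c : Om) (v : Om × C → Bool) : Om × C → Bool :=
  fun p => if p.1 ≤ c then v p else false

lemma trunc_le {c : Om} {v : Om × C → Bool} {p : Om × C} (h : p.1 ≤ c) : trunc c v p = v p := by
  simp [trunc, h]

lemma trunc_gt {c : Om} {v : Om × C → Bool} {p : Om × C} (h : c < p.1) :
    trunc c v p = false := by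
  simp [trunc, h]

lemma ev_lt (b : Om) : ∀ᶠ x in 𝓝[<] b, x < b := self_mem_nhdsWithin

lemma ev_gt {a b : Om} (h : a < b) : ∀ᶠ x in 𝓝[<] b, a < x := by
  filter_upwards [Ioo_mem_nhdsLT h] with x hx using hx.1

lemma ev_iff {b : Om} (hb : ∃ a, a < b) {P : Om → Prop} :
    (∀ᶠ x in 𝓝[<] b, P x) ↔ ∃ e < b, ∀ x, e < x → x < b → P x := by
  rw [(nhdsLT_basis_of_exists_lt hb).eventually_iff]
  constructor
  · rintro ⟨e, he, h⟩
    exact ⟨e, he, fun x h1 h2 => h ⟨h1, h2⟩⟩
  · rintro ⟨e, he, h⟩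
    exact ⟨e, he, fun x hx => h x hx.1 hx.2⟩

lemma Sv_mono {f : Om → Row} {c d : Om} (h : c ≤ d) : Sv f c ⊆ Sv f d := by
  intro v hv
  refine ⟨hv.1, hv.2.1, fun x hx => hv.2.2.1 x (h.trans_lt hx), fun b hb => ?_⟩
  rcases le_or_gt b c with h1 | h1
  · exact hv.2.2.2 b h1
  · filter_upwards [ev_gt h1] with x hx y
    rw [hv.2.2.1 x hx, hv.2.2.1 b h1]

lemma trunc_mem {f : Om → Row} {c d : Om} {v : Om × C → Bool} (hv : v ∈ Sv f d) :
    trunc c v ∈ Sv f c := by
  have hv' : v ∈ Sv f (max c d) := Sv_mono (le_max_right _ _) hv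
  refine ⟨fun x => ?_, fun x => ?_, fun x hx y => trunc_gt hx, fun b hb => ?_⟩
  · by_cases h : x ≤ c
    · have : (fun y => trunc c v (x, y)) = fun y => v (x, y) := by
        funext y; exact trunc_le h
      rw [this]; exact hv.1 x
    · have : (fun y => trunc c v (x, y)) = fun y => false := by
        funext y; exact trunc_gt (not_le.1 h)
      rw [this]; exact continuous_const
  · obtain ⟨y, hy⟩ := hv.2.1 x
    refine ⟨y, ?_⟩
    by_cases h : x ≤ c
    · rw [trunc_le h, hy]
    · exact trunc_gt (not_le.1 h)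
  · filter_upwards [hv'.2.2.2 b (hb.trans (le_max_left _ _)), ev_lt b] with x hx hxb y
    rw [trunc_le (p := (x, y)) (hxb.le.trans hb), trunc_le (p := (b, f b x y)) hb, hx]

lemma trunc_eq {f : Om → Row} {c : Om} {v : Om × C → Bool} (hv : v ∈ Sv f c) : trunc c v = v := by
  funext p
  by_cases h : p.1 ≤ c
  · exact trunc_le h
  · rw [trunc_gt (not_le.1 h)]
    exact (hv.2.2.1 p.1 (not_le.1 h) p.2).symm

lemma Sv_congr {f f' : Om → Row} {c : Om} (h : ∀ b ≤ c, f b = f' b) : Sv f c = Sv f' c := by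
  ext v
  unfold Sv
  simp only [mem_setOf_eq]
  refine and_congr_right fun _ => and_congr_right fun _ => and_congr_right fun _ => ?_
  refine forall_congr' fun b => ?_
  refine forall_congr' fun hb => ?_
  rw [h b hb]

/-- there are only countably many functions with support in `[0,c]` -/
lemma Sv_countable (f : Om → Row) (c : Om) : (Sv f c).Countable := by
  classical
  refine (wellFounded_lt (α := Om)).induction (C := fun c => (Sv f c).Countable) c ?_
  intro c ih
  by_cases hc : ∃ a, a < c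
  · let G : {b : C → Bool // Continuous b} × Om × (Om × C → Bool) → (Om × C → Bool) :=
      fun t p => if p.1 ≤ t.2.1 then t.2.2 p else if p.1 < c then t.1.1 (f c p.1 p.2) else
        if p.1 = c then t.1.1 p.2 else false
    have hsub : Sv f c ⊆ G '' (univ ×ˢ (Iio c ×ˢ ⋃ d ∈ Iio c, Sv f d)) := by
      intro v hv
      obtain ⟨e, he, h1⟩ := (ev_iff hc).1 (hv.2.2.2 c le_rfl)
      refine ⟨(⟨fun y => v (c, y), hv.1 c⟩, e, trunc e v),
        ⟨mem_univ _, he, mem_biUnion he (trunc_mem hv)⟩, ?_⟩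
      funext p
      show (if p.1 ≤ e then trunc e v p else if p.1 < c then v (c, f c p.1 p.2) else
        if p.1 = c then v (c, p.2) else false) = v p
      by_cases h2 : p.1 ≤ e
      · rw [if_pos h2, trunc_le h2]
      · rw [if_neg h2]
        by_cases h3 : p.1 < c
        · rw [if_pos h3]
          exact (h1 p.1 (not_le.1 h2) h3 p.2).symm
        · rw [if_neg h3]
          by_cases h4 : p.1 = c
          · rw [if_pos h4, ← h4]
          · rw [if_neg h4]
            exact (hv.2.2.1 p.1 (lt_of_le_of_ne (not_lt.1 h3) (Ne.symm h4)) p.2).symm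
    refine ((countable_univ.prod ((countable_Iio c).prod
      ((countable_Iio c).biUnion fun d hd => ih d hd))).image G).mono hsub
  · let G : {b : C → Bool // Continuous b} → (Om × C → Bool) :=
      fun t p => if p.1 = c then t.1 p.2 else false
    have hsub : Sv f c ⊆ range G := by
      intro v hv
      refine ⟨⟨fun y => v (c, y), hv.1 c⟩, ?_⟩
      funext p
      show (if p.1 = c then v (c, p.2) else false) = v p
      by_cases h4 : p.1 = c
      · rw [if_pos h4, ← h4]
      · rw [if_neg h4]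
        push Not at hc
        exact (hv.2.2.1 p.1 (lt_of_le_of_ne (hc p.1) (Ne.symm h4)) p.2).symm
    exact (countable_range G).mono hsub

open Classical in
/-- `s` on `[0,e]`, `b ∘ r` on `(e,n]`, zero above -/
noncomputable def comb (e n : Om) (s : Om × C → Bool) (b : C → Bool) (r : Row) : Om × C → Bool :=
  fun q => if q.1 ≤ e then s q else if q.1 ≤ n then b (r q.1 q.2) else false

/-- the row `r` at `a` takes care of the guess `Φ` -/
def Hnd (Φ : (Om × C → Bool) → Finset (Om × C)) (f : Om → Row) (a : Om) (r : Row) : Prop :=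
  ∀ e < a, ∀ s ∈ Sv f e, ∀ b : C → Bool, Continuous b → (∃ y, b y = false) →
    ∃ n, e ≤ n ∧ n < a ∧ ∀ p ∈ Φ (comb e n s b r), n < p.1 → p.1 < a → b (r p.1 p.2) = false

/-- the requirement on the row at `a` -/
def Q (Φs : Om → (Om × C → Bool) → Finset (Om × C)) (a : Om) (f : Om → Row) (r : Row) : Prop :=
  ((∀ x, Continuous (r x) ∧ Function.Surjective (r x)) ∧ r a = id ∧
    ∀ b < a, ∀ᶠ x in 𝓝[<] b, r x = r b ∘ f b x) ∧ Hnd (Φs a) f a r

lemma Q_local (Φs : Om → (Om × C → Bool) → Finset (Om × C)) (a : Om) (f f' : Om → Row) (r : Row)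
    (h : ∀ b < a, f b = f' b) (hQ : Q Φs a f r) : Q Φs a f' r := by
  obtain ⟨⟨h1, h2, h3⟩, h4⟩ := hQ
  refine ⟨⟨h1, h2, fun b hb => ?_⟩, ?_⟩
  · rw [← h b hb]; exact h3 b hb
  · intro e he s hs
    have : Sv f e = Sv f' e := Sv_congr fun b hb => h b (hb.trans_lt he)
    exact h4 e he s (this ▸ hs)

lemma lim_finite {a : Om} (ha : Lim a) {A : Set Om} (hA : A.Finite) :
    ∃ c < a, ∀ x ∈ A, x < a → x < c := by
  induction A, hA using Set.Finite.induction_on with
  | empty =>
    obtain ⟨b, hb⟩ := ha.1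
    exact ⟨b, hb, by simp⟩
  | insert h1 h2 ih =>
    rename_i x A
    obtain ⟨c, hc, h3⟩ := ih
    by_cases hx : x < a
    · obtain ⟨d, hd1, hd2⟩ := ha.2 (max c x) (max_lt hc hx)
      refine ⟨d, hd2, ?_⟩
      intro y hy hya
      rcases hy with rfl | hy
      · exact (le_max_right _ _).trans_lt hd1
      · exact (h3 y hy hya).trans_le ((le_max_left _ _).trans hd1.le)
    · refine ⟨c, hc, ?_⟩
      intro y hy hya
      rcases hy with rfl | hy
      · exact absurd hya hx
      · exact h3 y hy hya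

/-- a partial row -/
def Inv (f : Om → Row) (a : Om) (σ : Om × Row) : Prop :=
  σ.1 < a ∧ (∀ x ≤ σ.1, Continuous (σ.2 x) ∧ Function.Surjective (σ.2 x)) ∧
    ∀ b ≤ σ.1, ∀ᶠ x in 𝓝[<] b, σ.2 x = σ.2 b ∘ f b x

lemma step (Φ : (Om × C → Bool) → Finset (Om × C)) (f : Om → Row) (a : Om) (ha : Lim a)
    (hf : ∀ c < a, Coh f c) (σ : Om × Row) (hσ : Inv f a σ) (d1 d2 : Om) (hd1 : d1 < a)
    (hd2 : d2 < a) (e : Om) (s : Om × C → Bool) (b : C → Bool) (hb : Continuous b)
    (hbne : ∃ y, b y = false) :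
    ∃ τ : Om × Row, Inv f a τ ∧ σ.1 < τ.1 ∧ (∀ x ≤ σ.1, τ.2 x = σ.2 x) ∧ d1 ≤ τ.1 ∧ d2 ≤ τ.1 ∧
      ∀ p ∈ Φ (comb e σ.1 s b σ.2), σ.1 < p.1 → p.1 < a → p.1 ≤ τ.1 ∧ b (τ.2 p.1 p.2) = false := by
  classical
  obtain ⟨γ, r⟩ := σ
  obtain ⟨h1, h2, h3⟩ := hσ
  simp only at h1 h2 h3 ⊢
  let F := Φ (comb e γ s b r)
  have hfin : (({γ, d1, d2} : Set Om) ∪ Prod.fst '' (F : Set (Om × C))).Finite :=
    (by simp : ({γ, d1, d2} : Set Om).Finite).union (F.finite_toSet.image _)
  obtain ⟨γ', h4, h5⟩ := lim_finite ha hfin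
  have hγ : γ < γ' := h5 γ (by simp) h1
  obtain ⟨g, hg1, hg2, hg3⟩ := cantor_map ((fun p : Om × C => f γ' p.1 p.2) '' (F : Set (Om × C)))
    (F.finite_toSet.image _) b hb hbne
  obtain ⟨hc1, hc2, hc3⟩ := hf γ' h4
  refine ⟨(γ', fun x => if x ≤ γ then r x else g ∘ f γ' x), ⟨h4, ?_, ?_⟩, hγ, ?_, ?_, ?_, ?_⟩
  · intro x hx
    show Continuous (if _ then _ else _) ∧ Function.Surjective (if _ then _ else _)
    split_ifs with h
    · exact h2 x h
    · exact ⟨hg1.comp (hc1 x).1, hg2.comp (hc1 x).2⟩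
  · intro c hc
    show ∀ᶠ x in 𝓝[<] c, (if x ≤ γ then r x else g ∘ f γ' x) =
      (if c ≤ γ then r c else g ∘ f γ' c) ∘ f c x
    by_cases hcγ : c ≤ γ
    · filter_upwards [h3 c hcγ, ev_lt c] with x hx hxc
      rw [if_pos (hxc.le.trans hcγ), if_pos hcγ, hx]
    · rw [if_neg hcγ]
      have key : ∀ᶠ x in 𝓝[<] c, f γ' x = f γ' c ∘ f c x := by
        rcases lt_or_eq_of_le hc with h | h
        · exact hc3 c h
        · subst h
          filter_upwards with x
          rw [hc2, Function.id_comp]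
      filter_upwards [key, ev_gt (not_le.1 hcγ)] with x hx hxc
      rw [if_neg (not_le.2 hxc), hx, Function.comp_assoc]
  · intro x hx
    show (if _ then _ else _) = _
    rw [if_pos hx]
  · exact (h5 d1 (by simp) hd1).le
  · exact (h5 d2 (by simp) hd2).le
  · intro p hp hp1 hp2
    refine ⟨(h5 p.1 (Or.inr ⟨p, hp, rfl⟩) hp2).le, ?_⟩
    show b ((if _ then _ else _ : C → C) p.2) = false
    rw [if_neg (not_le.2 hp1)]
    exact hg3 _ ⟨p, hp, rfl⟩

lemma zero_mem (f : Om → Row) (c : Om) : (fun _ => false) ∈ Sv f c :=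
  ⟨fun x => continuous_const, fun x => ⟨fun _ => false, rfl⟩, fun x hx y => rfl,
    fun b hb => Eventually.of_forall fun x y => rfl⟩

lemma exists_row (Φs : Om → (Om × C → Bool) → Finset (Om × C)) (a : Om) (f : Om → Row)
    (hf : ∀ b < a, Q Φs b f (f b)) : ∃ r, Q Φs a f r := by
  classical
  have hcoh : ∀ c < a, Coh f c := fun c hc => (hf c hc).1
  by_cases hlim : Lim a
  · -- enumerate the tasks
    let T : Set (Om × (Om × C → Bool) × {b : C → Bool // Continuous b}) :=
      {t | t.1 < a ∧ t.2.1 ∈ Sv f t.1 ∧ ∃ y, t.2.2.1 y = false}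
    have hTc : T.Countable := by
      have : T ⊆ Iio a ×ˢ ((⋃ d ∈ Iio a, Sv f d) ×ˢ univ) := by
        rintro ⟨e, s, b⟩ ⟨h1, h2, h3⟩
        exact ⟨h1, mem_biUnion h1 h2, mem_univ _⟩
      exact ((countable_Iio a).prod (((countable_Iio a).biUnion fun d _ => Sv_countable f d).prod
        countable_univ)).mono this
    obtain ⟨e0, he0⟩ := hlim.1
    have hTne : T.Nonempty :=
      ⟨(e0, fun _ => false, ⟨fun _ => false, continuous_const⟩), he0, zero_mem f e0, fun _ => false, rfl⟩
    obtain ⟨t, ht⟩ := hTc.exists_eq_range hTne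
    obtain ⟨d, hd⟩ := (countable_Iio a).exists_eq_range ⟨e0, he0⟩
    have htT : ∀ n, t n ∈ T := fun n => ht ▸ mem_range_self n
    have hda : ∀ n, d n < a := fun n => by
      have : d n ∈ Iio a := hd ▸ mem_range_self n
      exact this
    have hstep : ∀ (n : ℕ) (σ : {σ : Om × Row // Inv f a σ}), ∃ τ : {σ : Om × Row // Inv f a σ},
        σ.1.1 < τ.1.1 ∧ (∀ x ≤ σ.1.1, τ.1.2 x = σ.1.2 x) ∧ d n ≤ τ.1.1 ∧ (t (n + 1)).1 ≤ τ.1.1 ∧
        ∀ p ∈ Φs a (comb (t n).1 σ.1.1 (t n).2.1 (t n).2.2.1 σ.1.2), σ.1.1 < p.1 → p.1 < a →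
          p.1 ≤ τ.1.1 ∧ (t n).2.2.1 (τ.1.2 p.1 p.2) = false := by
      intro n σ
      obtain ⟨τ, h1, h2, h3, h4, h5, h6⟩ := step (Φs a) f a hlim hcoh σ.1 σ.2 (d n) (t (n + 1)).1
        (hda n) (htT (n + 1)).1 (t n).1 (t n).2.1 (t n).2.2.1 (t n).2.2.2 (htT n).2.2
      exact ⟨⟨τ, h1⟩, h2, h3, h4, h5, h6⟩
    choose nx n1 n2 n3 n4 n5 using hstep
    have hinit : Inv f a ((t 0).1, fun x => f (t 0).1 x) := by
      obtain ⟨hc1, hc2, hc3⟩ := hcoh (t 0).1 (htT 0).1
      refine ⟨(htT 0).1, fun x hx => hc1 x, ?_⟩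
      intro b hb
      rcases lt_or_eq_of_le hb with h | h
      · exact hc3 b h
      · simp only at h ⊢
        rw [h]
        filter_upwards with x
        rw [hc2, Function.id_comp]
    let S : ℕ → {σ : Om × Row // Inv f a σ} := fun n =>
      Nat.rec ⟨((t 0).1, fun x => f (t 0).1 x), hinit⟩ (fun n σ => nx n σ) n
    have hS : ∀ n, S (n + 1) = nx n (S n) := fun n => rfl
    have hmono : StrictMono fun n => (S n).1.1 := strictMono_nat_of_lt_succ fun n => by
      show (S n).1.1 < (S (n + 1)).1.1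
      rw [hS]; exact n1 n _
    have hstab : ∀ n m, n ≤ m → ∀ x ≤ (S n).1.1, (S m).1.2 x = (S n).1.2 x := by
      intro n m hnm
      induction m, hnm using Nat.le_induction with
      | base => intro x _; rfl
      | succ m hm ih =>
        intro x hx
        rw [hS, n2 m (S m) x (hx.trans (hmono.monotone hm)), ih x hx]
    have hcof : ∀ x < a, ∃ n, x ≤ (S n).1.1 := by
      intro x hx
      have : x ∈ range d := hd ▸ hx
      obtain ⟨n, rfl⟩ := this
      refine ⟨n + 1, ?_⟩
      rw [hS]; exact n3 n _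
    have ht1 : ∀ n, (t n).1 ≤ (S n).1.1 := by
      intro n
      cases n with
      | zero => exact le_rfl
      | succ n => rw [hS]; exact n4 n _
    let r : Row := fun x => if h : ∃ n, x ≤ (S n).1.1 then (S h.choose).1.2 x else id
    have hr : ∀ n, ∀ x ≤ (S n).1.1, r x = (S n).1.2 x := by
      intro n x hx
      have h : ∃ n, x ≤ (S n).1.1 := ⟨n, hx⟩
      show dite _ _ _ = _
      rw [dif_pos h]
      rcases le_total h.choose n with h1 | h1
      · exact (hstab _ _ h1 x h.choose_spec).symm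
      · exact hstab _ _ h1 x hx
    refine ⟨r, ⟨?_, ?_, ?_⟩, ?_⟩
    · intro x
      by_cases h : ∃ n, x ≤ (S n).1.1
      · obtain ⟨n, hn⟩ := h
        rw [hr n x hn]
        exact (S n).2.2.1 x hn
      · have : r x = id := by
          show dite _ _ _ = _
          rw [dif_neg h]
        rw [this]
        exact ⟨continuous_id, Function.surjective_id⟩
    · have h : ¬ ∃ n, a ≤ (S n).1.1 := by
        rintro ⟨n, hn⟩
        exact absurd ((S n).2.1) (not_lt.2 hn)
      show dite _ _ _ = _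
      rw [dif_neg h]
    · intro b hb
      obtain ⟨n, hn⟩ := hcof b hb
      filter_upwards [(S n).2.2.2 b hn, ev_lt b] with x hx hxb
      rw [hr n b hn, hr n x (hxb.le.trans hn)]
      exact hx
    · intro e he s hs b hb hbne
      have hmem : (e, s, (⟨b, hb⟩ : {b : C → Bool // Continuous b})) ∈ T := ⟨he, hs, hbne⟩
      rw [ht] at hmem
      obtain ⟨n, hn⟩ := hmem
      have h1 : (t n).1 = e := by rw [hn]
      have h2 : (t n).2.1 = s := by rw [hn]
      have h3 : (t n).2.2.1 = b := by rw [hn]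
      refine ⟨(S n).1.1, h1 ▸ ht1 n, (S n).2.1, ?_⟩
      have hcomb : comb e (S n).1.1 s b r = comb e (S n).1.1 s b (S n).1.2 := by
        funext q
        unfold comb
        by_cases hq1 : q.1 ≤ e
        · rw [if_pos hq1, if_pos hq1]
        · rw [if_neg hq1, if_neg hq1]
          by_cases hq2 : q.1 ≤ (S n).1.1
          · rw [if_pos hq2, if_pos hq2, hr n q.1 hq2]
          · rw [if_neg hq2, if_neg hq2]
      rw [hcomb]
      intro p hp hp1 hp2
      have := n5 n (S n) p (by rw [h1, h2, h3]; exact hp) hp1 hp2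
      rw [← hS, h3] at this
      rw [hr (n + 1) p.1 this.1]
      exact this.2
  · by_cases hbot : ∃ b, b < a
    · have hsucc : ∃ c < a, ∀ d, c < d → a ≤ d := by
        by_contra hcon
        push Not at hcon
        exact hlim ⟨hbot, fun b hb => by
          obtain ⟨d, h1, h2⟩ := hcon b hb
          exact ⟨d, h1, h2⟩⟩
      obtain ⟨c, hca, hc⟩ := hsucc
      obtain ⟨hc1, hc2, hc3⟩ := hcoh c hca
      refine ⟨fun x => if x ≤ c then f c x else id, ⟨?_, ?_, ?_⟩, ?_⟩
      · intro x
        show Continuous (if _ then _ else _) ∧ Function.Surjective (if _ then _ else _)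
        split_ifs
        · exact hc1 x
        · exact ⟨continuous_id, Function.surjective_id⟩
      · show (if _ then _ else _) = _
        rw [if_neg (not_le.2 hca)]
      · intro b hb
        have hbc : b ≤ c := by
          by_contra h
          exact absurd (hc b (not_le.1 h)) (not_le.2 hb)
        show ∀ᶠ x in 𝓝[<] b, (if x ≤ c then f c x else id) =
          (if b ≤ c then f c b else id) ∘ f b x
        rw [if_pos hbc]
        have key : ∀ᶠ x in 𝓝[<] b, f c x = f c b ∘ f b x := by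
          rcases lt_or_eq_of_le hbc with h | h
          · exact hc3 b h
          · subst h
            filter_upwards with x
            rw [hc2, Function.id_comp]
        filter_upwards [key, ev_lt b] with x hx hxb
        rw [if_pos (hxb.le.trans hbc), hx]
      · intro e he s hs b hb hbne
        have hec : e ≤ c := by
          by_contra h
          exact absurd (hc e (not_le.1 h)) (not_le.2 he)
        exact ⟨c, hec, hca, fun p _ hp1 hp2 => absurd (hc p.1 hp1) (not_le.2 hp2)⟩
    · push Not at hbot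
      refine ⟨fun _ => id, ⟨fun x => ⟨continuous_id, Function.surjective_id⟩, rfl, ?_⟩, ?_⟩
      · intro b hb
        exact absurd hb (not_lt.2 (hbot b))
      · intro e he
        exact absurd he (not_lt.2 (hbot e))

lemma exists_system (Φs : Om → (Om × C → Bool) → Finset (Om × C)) :
    ∃ f : Om → Row, ∀ a, Coh f a ∧ Hnd (Φs a) f a (f a) := by
  haveI : Inhabited Row := ⟨fun _ => id⟩
  obtain ⟨f, hf⟩ := exists_rec (Q Φs) (Q_local Φs) (fun a f h => exists_row Φs a f h)
  exact ⟨f, fun a => ⟨(hf a).1, (hf a).2⟩⟩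

lemma club_Ioi (c : Om) : IsClub {a | c < a} := by
  constructor
  · intro b
    obtain ⟨a, ha⟩ := exists_gt' (max b c)
    exact ⟨a, (le_max_right _ _).trans_lt ha, (le_max_left _ _).trans_lt ha⟩
  · intro a h1 h2
    obtain ⟨b, hb⟩ := h1
    obtain ⟨d, hd, _, h3⟩ := h2 b hb
    exact lt_trans hd h3

lemma aleph0_le_aleph1 : (Cardinal.aleph0 : Cardinal.{0}) ≤ Cardinal.aleph 1 := Cardinal.aleph0_lt_aleph_one.le

lemma diamond_ch (h : Diamond) : (Cardinal.continuum : Cardinal.{0}) ≤ Cardinal.aleph 1 := by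
  obtain ⟨A, hA⟩ := h
  haveI : Infinite Om := inferInstance
  let i : ℕ ↪ Om := Infinite.natEmbedding Om
  have hs : Function.Surjective (fun a : Om => i ⁻¹' (A a)) := by
    intro X
    obtain ⟨c, hc⟩ := bdd_of_countable (countable_range i)
    obtain ⟨a, ha, h1⟩ := hA (i '' X) _ (club_Ioi c)
    refine ⟨a, ?_⟩
    show i ⁻¹' (A a) = X
    rw [h1]
    ext n
    constructor
    · rintro ⟨⟨m, hm, hmn⟩, _⟩
      exact i.injective hmn ▸ hm
    · intro hn
      exact ⟨⟨n, hn, rfl⟩, (hc _ ⟨n, rfl⟩).trans ha⟩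
  have := Cardinal.mk_le_of_surjective hs
  rwa [mk_Om, Cardinal.mk_set, Cardinal.mk_nat, Cardinal.two_power_aleph0] at this

/-- bounded functions with continuous sections -/
def YY : Set (Om × C → Bool) :=
  {v | (∀ x, Continuous fun y => v (x, y)) ∧ ∃ c, ∀ x, c < x → ∀ y, v (x, y) = false}

lemma Sv_sub_YY (f : Om → Row) (c : Om) : Sv f c ⊆ YY := fun v hv => ⟨hv.1, c, hv.2.2.1⟩

lemma mk_C : Cardinal.mk C = Cardinal.continuum := by
  simp [C]

lemma mk_OmC (h : Diamond) : Cardinal.mk (Om × C) ≤ Cardinal.aleph 1 := by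
  have h1 := diamond_ch h
  rw [Cardinal.mk_prod, Cardinal.lift_id, Cardinal.lift_id, mk_Om, mk_C]
  calc Cardinal.aleph 1 * Cardinal.continuum ≤ Cardinal.aleph 1 * Cardinal.aleph 1 :=
        mul_le_mul' le_rfl h1
    _ = Cardinal.aleph 1 := Cardinal.mul_eq_self aleph0_le_aleph1

lemma mk_YY (h : Diamond) : Cardinal.mk YY ≤ Cardinal.aleph 1 := by
  have henum : ∀ c : Om, ∃ e : ℕ → Om, Iic c = range e := fun c =>
    (countable_Iic c).exists_eq_range nonempty_Iic
  choose e he using henum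
  choose cc hcc using fun v : YY => v.2.2
  let j : YY → Om × (ℕ → {b : C → Bool // Continuous b}) := fun v =>
    (cc v, fun n => ⟨fun y => v.1 (e (cc v) n, y), v.2.1 _⟩)
  have hj : Function.Injective j := by
    intro v v' hvv
    have h1 : cc v = cc v' := congrArg Prod.fst hvv
    have h2 : (fun n => (⟨fun y => v.1 (e (cc v) n, y), v.2.1 _⟩ : {b : C → Bool // Continuous b})) =
      (fun n => ⟨fun y => v'.1 (e (cc v') n, y), v'.2.1 _⟩) := congrArg Prod.snd hvv
    apply Subtype.ext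
    funext p
    obtain ⟨x, y⟩ := p
    by_cases hx : x ≤ cc v
    · have : x ∈ range (e (cc v)) := he (cc v) ▸ hx
      obtain ⟨n, rfl⟩ := this
      have h3 := congrArg Subtype.val (congrFun h2 n)
      have h4 := congrFun h3 y
      simp only at h4
      rw [h4, h1]
    · rw [hcc v x (not_le.1 hx), hcc v' x (h1 ▸ not_le.1 hx)]
  refine (Cardinal.mk_le_of_injective hj).trans ?_
  have h1 := diamond_ch h
  have h2 : Cardinal.mk (ℕ → {b : C → Bool // Continuous b}) ≤ Cardinal.aleph 1 := by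
    rw [← Cardinal.power_def, Cardinal.mk_nat]
    calc Cardinal.mk {b : C → Bool // Continuous b} ^ Cardinal.aleph0
        ≤ Cardinal.aleph0 ^ Cardinal.aleph0 := Cardinal.power_le_power_right Cardinal.mk_le_aleph0
      _ = Cardinal.continuum := Cardinal.aleph0_power_aleph0
      _ ≤ Cardinal.aleph 1 := h1
  rw [Cardinal.mk_prod, Cardinal.lift_id, Cardinal.lift_id, mk_Om]
  calc Cardinal.aleph 1 * Cardinal.mk (ℕ → {b : C → Bool // Continuous b})
      ≤ Cardinal.aleph 1 * Cardinal.aleph 1 := mul_le_mul' le_rfl h2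
    _ = Cardinal.aleph 1 := Cardinal.mul_eq_self aleph0_le_aleph1

/-- diamond guesses assignments of finite sets -/
lemma diamond_guess (h : Diamond) : ∃ Φs : Om → (Om × C → Bool) → Finset (Om × C),
    ∀ (Φ : (Om × C → Bool) → Finset (Om × C)) (T : Om → Set (Om × C → Bool)),
      (∀ c, (T c).Countable) → (∀ c, T c ⊆ YY) →
      ∃ a, Lim a ∧ ∀ c < a, ∀ u ∈ T c, Φs a u = Φ u ∧ ∀ p ∈ Φ u, p.1 < a := by
  classical
  have hD : Cardinal.mk (YY × Finset (Om × C)) ≤ Cardinal.mk Om := by
    rw [mk_Om, Cardinal.mk_prod, Cardinal.lift_id, Cardinal.lift_id]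
    haveI : Infinite (Om × C) := inferInstance
    rw [Cardinal.mk_finset_of_infinite]
    calc Cardinal.mk YY * Cardinal.mk (Om × C) ≤ Cardinal.aleph 1 * Cardinal.aleph 1 :=
          mul_le_mul' (mk_YY h) (mk_OmC h)
      _ = Cardinal.aleph 1 := Cardinal.mul_eq_self aleph0_le_aleph1
  obtain ⟨code⟩ := Cardinal.le_def _ _ |>.1 hD
  obtain ⟨A, hA⟩ := h
  refine ⟨fun a u => if hu : ∃ (hY : u ∈ YY) (F : Finset (Om × C)), code (⟨u, hY⟩, F) ∈ A a
    then hu.choose_spec.choose else ∅, ?_⟩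
  intro Φ T hTc hTY
  have hG : ∀ c : Om, ∃ d, (∀ u ∈ T c, ∀ hY : u ∈ YY, code (⟨u, hY⟩, Φ u) < d) ∧
      ∀ u ∈ T c, ∀ p ∈ Φ u, p.1 < d := by
    intro c
    have h1 : {d | ∃ u ∈ T c, ∃ hY : u ∈ YY, d = code (⟨u, hY⟩, Φ u)}.Countable := by
      have : {d | ∃ u ∈ T c, ∃ hY : u ∈ YY, d = code (⟨u, hY⟩, Φ u)} ⊆
          (fun u => if hY : u ∈ YY then code (⟨u, hY⟩, Φ u) else Classical.arbitrary Om) '' T c := by
        rintro d ⟨u, hu, hY, rfl⟩
        exact ⟨u, hu, by simp [hY]⟩
      exact ((hTc c).image _).mono this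
    have h2 : (⋃ u ∈ T c, (Prod.fst '' ((Φ u : Finset (Om × C)) : Set (Om × C)))).Countable :=
      (hTc c).biUnion fun u _ => ((Φ u).countable_toSet.image _)
    obtain ⟨d, hd⟩ := bdd_of_countable (h1.union h2)
    refine ⟨d, fun u hu hY => hd _ (Or.inl ⟨u, hu, hY, rfl⟩), fun u hu p hp => ?_⟩
    exact hd _ (Or.inr (mem_biUnion hu ⟨p, hp, rfl⟩))
  choose G hG1 hG2 using hG
  obtain ⟨a, ⟨hlim, hcl⟩, hAa⟩ := hA {d | ∃ u, ∃ hY : u ∈ YY, d = code (⟨u, hY⟩, Φ u)} _
    (club_closure G)
  refine ⟨a, hlim, fun c hc u hu => ?_⟩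
  have hY : u ∈ YY := hTY c hu
  have hcode : code (⟨u, hY⟩, Φ u) ∈ A a := by
    rw [hAa]
    exact ⟨⟨u, hY, rfl⟩, (hG1 c u hu hY).trans (hcl c hc)⟩
  refine ⟨?_, fun p hp => (hG2 c u hu p hp).trans (hcl c hc)⟩
  have hex : ∃ (hY : u ∈ YY) (F : Finset (Om × C)), code (⟨u, hY⟩, F) ∈ A a := ⟨hY, Φ u, hcode⟩
  show dite _ _ _ = _
  rw [dif_pos hex]
  have h3 := hex.choose_spec.choose_spec
  obtain ⟨⟨u', hY', h4⟩, _⟩ := (Set.ext_iff.1 hAa _).1 h3
  have h5 := code.injective h4
  have h6 : u = u' := congrArg (fun t : YY × Finset (Om × C) => t.1.1) h5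
  have h7 := congrArg Prod.snd h5
  simp only at h7
  rw [h7, h6]

/-- the covering property -/
lemma cover_core (Φs : Om → (Om × C → Bool) → Finset (Om × C)) (f : Om → Row)
    (hf : ∀ a, Coh f a ∧ Hnd (Φs a) f a (f a)) (Φ : (Om × C → Bool) → Finset (Om × C)) (a : Om)
    (hlim : Lim a) (ha : ∀ c < a, ∀ u ∈ Sv f c, Φs a u = Φ u ∧ ∀ p ∈ Φ u, p.1 < a)
    (v : Om × C → Bool) (hv : v ∈ XX f) : ∃ c < a, ∃ u ∈ Sv f c, ∀ p ∈ Φ u, v p = u p := by
  obtain ⟨d, hd⟩ := mem_iUnion.1 hv
  have hd' : v ∈ Sv f (max a d) := Sv_mono (le_max_right _ _) hd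
  obtain ⟨e, he, h1⟩ := (ev_iff hlim.1).1 (hd'.2.2.2 a (le_max_left _ _))
  obtain ⟨n, hen, hna, hn⟩ := (hf a).2 e he (trunc e v) (trunc_mem hd) (fun y => v (a, y))
    (hd.1 a) (hd.2.1 a)
  have hcomb : comb e n (trunc e v) (fun y => v (a, y)) (f a) = trunc n v := by
    funext q
    unfold comb
    by_cases h2 : q.1 ≤ e
    · rw [if_pos h2, trunc_le h2, trunc_le (h2.trans hen)]
    · rw [if_neg h2]
      by_cases h3 : q.1 ≤ n
      · rw [if_pos h3, trunc_le h3]
        exact (h1 q.1 (not_le.1 h2) (h3.trans_lt hna) q.2).symm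
      · rw [if_neg h3, trunc_gt (not_le.1 h3)]
  rw [hcomb] at hn
  have hmem : trunc n v ∈ Sv f n := trunc_mem hd
  obtain ⟨h4, h5⟩ := ha n hna (trunc n v) hmem
  rw [h4] at hn
  refine ⟨n, hna, trunc n v, hmem, fun p hp => ?_⟩
  by_cases h6 : p.1 ≤ n
  · rw [trunc_le h6]
  · have h7 := hn p hp (not_le.1 h6) (h5 p hp)
    rw [trunc_gt (not_le.1 h6), ← h7]
    exact h1 p.1 (hen.trans_lt (not_le.1 h6)) (h5 p hp) p.2

lemma main_core (h : Diamond) : ∃ f : Om → Row, (∀ a, Coh f a) ∧
    ∀ Φ : (Om × C → Bool) → Finset (Om × C), ∃ a, ∀ v ∈ XX f,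
      ∃ c < a, ∃ u ∈ Sv f c, ∀ p ∈ Φ u, v p = u p := by
  obtain ⟨Φs, hΦ⟩ := diamond_guess h
  obtain ⟨f, hf⟩ := exists_system Φs
  refine ⟨f, fun a => (hf a).1, fun Φ => ?_⟩
  obtain ⟨a, hlim, ha⟩ := hΦ Φ (Sv f) (Sv_countable f) (Sv_sub_YY f)
  exact ⟨a, fun v hv => cover_core Φs f hf Φ a hlim ha v hv⟩

/-- `E` is a closed unbounded subset of `ω₁` -/
def IsClubOmegaOne (E : Set Ordinal.{0}) : Prop :=
  (∀ a ∈ E, a < Ordinal.omega 1) ∧ (∀ b < Ordinal.omega 1, ∃ a ∈ E, b < a) ∧
    ∀ a < Ordinal.omega 1, a ≠ 0 → (∀ b < a, ∃ c ∈ E, b < c ∧ c < a) → a ∈ E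

/-- Jensen's principle diamond: some sequence `(A a)`, `a < ω₁`, guesses every subset `S` of `ω₁`
on every closed unbounded set `E` -/
def DiamondOmegaOne : Prop :=
  ∃ A : Ordinal.{0} → Set Ordinal.{0}, ∀ S E : Set Ordinal.{0}, S ⊆ Iio (Ordinal.omega 1) →
    IsClubOmegaOne E → ∃ a ∈ E, A a = S ∩ Iio a

lemma diamond_transfer (h : DiamondOmegaOne) : Diamond := by
  obtain ⟨A, hA⟩ := h
  let e : Iio (Cardinal.aleph 1).ord ≃o Om := Ordinal.ToType.mk
  have hom : (Cardinal.aleph 1).ord = (Ordinal.omega 1 : Ordinal.{0}) := Cardinal.ord_aleph 1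
  refine ⟨fun a => {x | (e.symm x).1 ∈ A (e.symm a).1}, ?_⟩
  intro S E hE
  have hlt : ∀ x : Om, (e.symm x).1 < (Ordinal.omega 1 : Ordinal.{0}) := fun x => by
    rw [← hom]; exact (e.symm x).2
  have hclub : IsClubOmegaOne ((fun x : Om => (e.symm x).1) '' E) := by
    refine ⟨?_, ?_, ?_⟩
    · rintro _ ⟨x, _, rfl⟩
      exact hlt x
    · intro b hb
      obtain ⟨a, ha, hab⟩ := hE.1 (e ⟨b, by rw [mem_Iio, hom]; exact hb⟩)
      refine ⟨_, ⟨a, ha, rfl⟩, ?_⟩
      have h2 := e.symm.lt_iff_lt.2 hab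
      rw [OrderIso.symm_apply_apply] at h2
      exact h2
    · intro a ha ha0 hcl
      have ham : a ∈ Iio (Cardinal.aleph 1).ord := by rw [mem_Iio, hom]; exact ha
      have h0m : (0 : Ordinal.{0}) ∈ Iio (Cardinal.aleph 1).ord := by
        rw [mem_Iio, hom]; exact (pos_iff_ne_zero.2 ha0).trans ha
      refine ⟨e ⟨a, ham⟩, hE.2 _ ⟨e ⟨0, h0m⟩, ?_⟩ ?_, ?_⟩
      · exact e.lt_iff_lt.2 (pos_iff_ne_zero.2 ha0 : (0 : Ordinal.{0}) < a)
      · intro b hb
        have hb' : (e.symm b).1 < a := by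
          have h3 := e.symm.lt_iff_lt.2 hb
          rw [OrderIso.symm_apply_apply] at h3
          exact h3
        obtain ⟨_, ⟨c, hc, rfl⟩, h4, h5⟩ := hcl _ hb'
        refine ⟨c, hc, e.symm.lt_iff_lt.1 h4, ?_⟩
        have h6 : e.symm c < ⟨a, ham⟩ := h5
        have h7 := e.lt_iff_lt.2 h6
        rwa [OrderIso.apply_symm_apply] at h7
      · simp

  obtain ⟨a, ⟨a', ha'E, rfl⟩, ha⟩ := hA ((fun x : Om => (e.symm x).1) '' S)
    ((fun x : Om => (e.symm x).1) '' E) (by
      rintro _ ⟨x, _, rfl⟩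
      exact hlt x) hclub
  refine ⟨a', ha'E, ?_⟩
  ext x
  have h1 := Set.ext_iff.1 ha (e.symm x).1
  simp only [mem_setOf_eq]
  rw [h1]
  constructor
  · rintro ⟨⟨y, hy, hyx⟩, hx⟩
    have : y = x := e.symm.injective (Subtype.ext hyx)
    refine ⟨this ▸ hy, ?_⟩
    have hx' : e.symm x < e.symm a' := hx
    exact e.symm.lt_iff_lt.1 hx'
  · rintro ⟨hx, hxa⟩
    refine ⟨⟨x, hx, rfl⟩, ?_⟩
    have : e.symm x < e.symm a' := e.symm.lt_iff_lt.2 hxa
    exact this

/-- `C_p(X)`: the continuous real functions with the topology of pointwise convergence -/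
abbrev Cp (X : Type) [TopologicalSpace X] : Type := {f : X → ℝ // Continuous f}

/-- countable tightness -/
def CountablyTight (X : Type) [TopologicalSpace X] : Prop :=
  ∀ (A : Set X) (x : X), x ∈ closure A → ∃ B ⊆ A, B.Countable ∧ x ∈ closure B

/-- existence of a countable network -/
def HasCountableNetwork (X : Type) [TopologicalSpace X] : Prop :=
  ∃ N : Set (Set X), N.Countable ∧ ∀ U : Set X, IsOpen U → ∀ x ∈ U, ∃ S ∈ N, x ∈ S ∧ S ⊆ U

/-- `ω`-stability: every continuous image which has a continuous bijection onto a second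
countable space has a countable network (all spaces are Tychonoff) -/
def OmegaStable (X : Type) [TopologicalSpace X] : Prop :=
  ∀ (Y : Type) [TopologicalSpace Y] [T35Space Y] (g : X → Y), Continuous g →
    Function.Surjective g →
    (∃ (M : Type) (_ : TopologicalSpace M), T35Space M ∧ SecondCountableTopology M ∧
      ∃ h : Y → M, Continuous h ∧ Function.Bijective h) → HasCountableNetwork Y

/-- `A` is countably compact in `Z` -/
def CountablyCompactIn {Z : Type} [TopologicalSpace Z] (A : Set Z) : Prop :=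
  ∀ B ⊆ A, B.Infinite → ∃ z : Z, AccPt z (𝓟 B)

/-- g-spaces -/
def GSpace (Z : Type) [TopologicalSpace Z] : Prop :=
  ∀ A : Set Z, CountablyCompactIn A → IsCompact (closure A)

/-- Grothendieck spaces: every subspace of `C_p(X)` is a g-space -/
def Grothendieck (X : Type) [TopologicalSpace X] : Prop :=
  ∀ S : Set (Cp X), GSpace S

lemma open_fin {α : Type} {X : Set (α → Bool)} {O : Set X} (hO : IsOpen O) {v : X} (hv : v ∈ O) :
    ∃ F : Finset α, ∀ w : X, (∀ p ∈ F, w.1 p = v.1 p) → w ∈ O := by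
  obtain ⟨O', hO', rfl⟩ := isOpen_induced_iff.1 hO
  obtain ⟨I, u, h1, h2⟩ := isOpen_pi_iff.1 hO' v.1 hv
  refine ⟨I, fun w hw => h2 ?_⟩
  intro p hp
  rw [hw p hp]
  exact (h1 p hp).2

lemma open_fin_conv {α : Type} {X : Set (α → Bool)} (v : X) (F : Finset α) :
    IsOpen {w : X | ∀ p ∈ F, w.1 p = v.1 p} := by
  have : {w : X | ∀ p ∈ F, w.1 p = v.1 p} = ⋂ p ∈ F, {w : X | w.1 p = v.1 p} := by
    ext w; simp
  rw [this]
  refine isOpen_biInter_finset fun p _ => ?_
  have hc : Continuous fun w : X => w.1 p := (continuous_apply p).comp continuous_subtype_val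
  exact (isOpen_discrete ({v.1 p} : Set Bool)).preimage hc

section

variable {f : Om → Row} (hcoh : ∀ a, Coh f a)
  (hcov : ∀ Φ : (Om × C → Bool) → Finset (Om × C), ∃ a, ∀ v ∈ XX f,
      ∃ c < a, ∃ u ∈ Sv f c, ∀ p ∈ Φ u, v p = u p)

include hcov in
lemma cov' (F : XX f → Finset (Om × C)) : ∃ T : Set (XX f), T.Countable ∧ ∀ v : XX f, ∃ u ∈ T,
    ∀ p ∈ F u, v.1 p = u.1 p := by
  classical
  obtain ⟨a, ha⟩ := hcov (fun v => if h : v ∈ XX f then F ⟨v, h⟩ else ∅)
  refine ⟨{u : XX f | u.1 ∈ ⋃ c ∈ Iio a, Sv f c}, ?_, ?_⟩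
  · have : (⋃ c ∈ Iio a, Sv f c).Countable := (countable_Iio a).biUnion fun c _ => Sv_countable f c
    exact this.preimage Subtype.val_injective
  · intro v
    obtain ⟨c, hc, u, hu, h1⟩ := ha v.1 v.2
    have huX : u ∈ XX f := mem_iUnion.2 ⟨c, hu⟩
    refine ⟨⟨u, huX⟩, mem_biUnion hc hu, fun p hp => h1 p ?_⟩
    rw [dif_pos huX]
    exact hp

include hcov in
lemma lindelof_XX : LindelofSpace (XX f) := by
  refine ⟨isLindelof_of_countable_subcover ?_⟩
  intro ι U hU hcover
  have h1 : ∀ v : XX f, ∃ i, v ∈ U i := fun v => mem_iUnion.1 (hcover (mem_univ v))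
  choose i hi using h1
  choose F hF using fun v : XX f => open_fin (hU (i v)) (hi v)
  obtain ⟨T, hT, h2⟩ := cov' hcov F
  refine ⟨i '' T, hT.image _, fun v _ => ?_⟩
  obtain ⟨u, hu, h3⟩ := h2 v
  exact mem_biUnion (mem_image_of_mem i hu) (hF u v h3)

lemma exists_bound (v : XX f) : ∃ c, v.1 ∈ Sv f c := mem_iUnion.1 v.2

lemma tight_XX (f : Om → Row) : CountablyTight (XX f) := by
  classical
  intro A v0 hv0
  choose bd hbd using fun v : XX f => exists_bound v
  have hB : ∀ c, ∃ B ⊆ A, B.Countable ∧ ∀ v ∈ A, ∃ v' ∈ B, trunc c v'.1 = trunc c v.1 := by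
    intro c
    have h1 : ((fun v : XX f => trunc c v.1) '' A).Countable := by
      refine (Sv_countable f c).mono ?_
      rintro _ ⟨v, _, rfl⟩
      exact trunc_mem (hbd v)
    have h2 : ∀ u : ((fun v : XX f => trunc c v.1) '' A), ∃ v ∈ A, trunc c v.1 = u.1 :=
      fun u => u.2
    choose rep hr1 hr2 using h2
    haveI := h1.to_subtype
    refine ⟨range rep, ?_, countable_range rep, fun v hv => ?_⟩
    · rintro _ ⟨u, rfl⟩
      exact hr1 u
    · exact ⟨rep ⟨trunc c v.1, v, hv, rfl⟩, mem_range_self _, hr2 _⟩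
  choose B hBA hBc hB using hB
  have hG : ∀ c, ∃ d, ∀ v ∈ B c, bd v < d := by
    intro c
    obtain ⟨d, hd⟩ := bdd_of_countable ((hBc c).image bd)
    exact ⟨d, fun v hv => hd _ ⟨v, hv, rfl⟩⟩
  choose G hG using hG
  obtain ⟨a, ⟨hlim, hcl⟩, ha0⟩ := (club_closure G).1 (bd v0)
  refine ⟨⋃ c ∈ Iio a, B c, iUnion₂_subset fun c _ => hBA c,
    (countable_Iio a).biUnion fun c _ => hBc c, ?_⟩
  rw [mem_closure_iff]
  intro O hO hvO
  obtain ⟨F, hF⟩ := open_fin hO hvO
  have hfin : (Prod.fst '' (F : Set (Om × C))).Finite := F.finite_toSet.image _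
  obtain ⟨c, hca, hc⟩ := lim_finite hlim hfin
  obtain ⟨v, hv1, hv2⟩ := mem_closure_iff.1 hv0 _ (open_fin_conv v0 F) (fun p _ => rfl)
  obtain ⟨v', hv', h1⟩ := hB c v hv2
  refine ⟨v', hF v' ?_, mem_biUnion hca hv'⟩
  intro p hp
  by_cases hpa : p.1 < a
  · have hpc : p.1 ≤ c := (hc p.1 ⟨p, hp, rfl⟩ hpa).le
    have h2 := congrFun h1 p
    rw [trunc_le hpc, trunc_le hpc] at h2
    rw [h2]
    exact hv1 p hp
  · have h3 : a ≤ p.1 := not_lt.1 hpa
    rw [(hbd v').2.2.1 p.1 (((hG c v' hv').trans (hcl c hca)).trans_le h3) p.2,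
      (hbd v0).2.2.1 p.1 (ha0.trans_le h3) p.2]

include hcov in
lemma stable_XX : OmegaStable (XX f) := by
  intro Y _ _ g hg hgs hM
  obtain ⟨M, tM, hM1, hM2, h, hh, hhb⟩ := hM
  haveI : T3Space M := inferInstance
  letI : MetricSpace M := TopologicalSpace.metrizableSpaceMetric M
  have hm : Continuous (fun v => h (g v)) := hh.comp hg
  have h1 : ∀ n : ℕ, ∃ D : Set (Om × C), D.Countable ∧ ∀ v v' : XX f, (∀ p ∈ D, v.1 p = v'.1 p) →
      dist (h (g v)) (h (g v')) < 2 * (1 / ((n : ℝ) + 1)) := by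
    intro n
    have hpos : (0 : ℝ) < 1 / ((n : ℝ) + 1) := by positivity
    have hF : ∀ v : XX f, ∃ F : Finset (Om × C), ∀ w : XX f, (∀ p ∈ F, w.1 p = v.1 p) →
        dist (h (g w)) (h (g v)) < 1 / ((n : ℝ) + 1) := by
      intro v
      have hO : IsOpen {w : XX f | dist (h (g w)) (h (g v)) < 1 / ((n : ℝ) + 1)} :=
        isOpen_lt (hm.dist continuous_const) continuous_const
      exact open_fin hO (by simpa using hpos)
    choose F hF using hF
    obtain ⟨T, hT, h2⟩ := cov' hcov F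
    refine ⟨⋃ u ∈ T, (F u : Set (Om × C)), hT.biUnion fun u _ => (F u).countable_toSet, ?_⟩
    intro v v' hvv
    obtain ⟨u, hu, h3⟩ := h2 v
    have h4 : ∀ p ∈ F u, v'.1 p = u.1 p := by
      intro p hp
      rw [← hvv p (mem_biUnion hu hp)]
      exact h3 p hp
    have h5 := hF u v h3
    have h6 := hF u v' h4
    calc dist (h (g v)) (h (g v')) ≤ dist (h (g v)) (h (g u)) + dist (h (g v')) (h (g u)) :=
          dist_triangle_right _ _ _
      _ < 2 * (1 / ((n : ℝ) + 1)) := by linarith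
  choose D hDc hD using h1
  obtain ⟨c, hc⟩ := bdd_of_countable ((countable_iUnion hDc).image Prod.fst)
  choose bd hbd using fun v : XX f => exists_bound v
  have key : ∀ v : XX f, g v = g ⟨trunc c v.1, mem_iUnion.2 ⟨c, trunc_mem (hbd v)⟩⟩ := by
    intro v
    apply hhb.1
    apply eq_of_dist_eq_zero
    refine le_antisymm ?_ dist_nonneg
    refine le_of_forall_pos_le_add fun ε hε => ?_
    obtain ⟨n, hn⟩ := exists_nat_one_div_lt (half_pos hε)
    have h2 := hD n v ⟨trunc c v.1, mem_iUnion.2 ⟨c, trunc_mem (hbd v)⟩⟩ (by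
      intro p hp
      exact (trunc_le (hc p.1 ⟨p, mem_iUnion.2 ⟨n, hp⟩, rfl⟩).le).symm)
    linarith
  have hYc : Countable Y := by
    have h3 : Countable (Sv f c) := (Sv_countable f c).to_subtype
    refine Function.Surjective.countable (α := Sv f c)
      (f := fun u => g ⟨u.1, mem_iUnion.2 ⟨c, u.2⟩⟩) ?_
    intro y
    obtain ⟨v, rfl⟩ := hgs y
    exact ⟨⟨trunc c v.1, trunc_mem (hbd v)⟩, (key v).symm⟩
  refine ⟨range fun y : Y => ({y} : Set Y), countable_range _, fun U _ x hx => ?_⟩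
  exact ⟨{x}, ⟨x, rfl⟩, rfl, singleton_subset_iff.2 hx⟩

/-- evaluation -/
noncomputable def ev (f : Om → Row) (w : Om × C) : Cp (XX f) :=
  ⟨fun v => if v.1 w then 1 else 0,
    (continuous_of_discreteTopology (f := fun b : Bool => if b then (1 : ℝ) else 0)).comp
      ((continuous_apply w).comp continuous_subtype_val)⟩

/-- the zero function -/
def zero (f : Om → Row) : Cp (XX f) := ⟨fun _ => 0, continuous_const⟩

include hcoh in
lemma cone_mem (a : Om) (b : C → Bool) (hb : Continuous b) (hne : ∃ y, b y = false) :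
    (fun p : Om × C => if p.1 ≤ a then b (f a p.1 p.2) else false) ∈ XX f := by
  refine mem_iUnion.2 ⟨a, fun x => ?_, fun x => ?_, fun x hx y => if_neg (not_le.2 hx), ?_⟩
  · by_cases h : x ≤ a
    · simp only [h, if_true]
      exact hb.comp ((hcoh a).1 x).1
    · simp only [h, if_false]
      exact continuous_const
  · by_cases h : x ≤ a
    · obtain ⟨y, hy⟩ := hne
      obtain ⟨y', rfl⟩ := ((hcoh a).1 x).2 y
      exact ⟨y', by simp only [h, if_true]; exact hy⟩
    · exact ⟨fun _ => false, by simp only [h, if_false]⟩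
  · intro c hc
    have key : ∀ᶠ x in 𝓝[<] c, f a x = f a c ∘ f c x := by
      rcases lt_or_eq_of_le hc with h | h
      · exact (hcoh a).2.2 c h
      · subst h
        filter_upwards with x
        rw [(hcoh c).2.1, Function.id_comp]
    filter_upwards [key, ev_lt c] with x hx hxc y
    simp only [hxc.le.trans hc, hc, if_true]
    rw [hx]
    rfl

include hcoh in
lemma exists_true (w : Om × C) : ∃ v : XX f, v.1 w = true := by
  classical
  obtain ⟨a, z⟩ := w
  refine ⟨⟨_, cone_mem hcoh a (fun y => decide (y 0 = z 0)) ?_ ?_⟩, ?_⟩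
  · exact (continuous_of_discreteTopology (f := fun t : Bool => decide (t = z 0))).comp
      (continuous_apply 0)
  · exact ⟨fun _ => !(z 0), by cases h : z 0 <;> simp [h]⟩
  · simp only [le_refl, if_true]
    rw [(hcoh a).2.1]
    simp

include hcoh in
lemma notGrothendieck_XX : ¬ Grothendieck (XX f) := by
  classical
  intro hG
  have hcc : CountablyCompactIn (univ : Set (range (ev f))) := by
    intro B _ hB
    have hBinf : Infinite B := hB.to_subtype
    let z : ℕ ↪ B := Infinite.natEmbedding B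
    choose w hw using fun n => (z n).1.2
    have hwz : ∀ n, ev f (w n) = (z n).1.1 := hw
    obtain ⟨c, hc⟩ := bdd_of_countable (countable_range fun n => (w n).1)
    have hex : {a : Om | {n | (w n).1 ≤ a}.Infinite}.Nonempty := by
      refine ⟨c, ?_⟩
      have : {n | (w n).1 ≤ c} = univ := by
        ext n; simp [(hc _ ⟨n, rfl⟩).le]
      rw [mem_setOf_eq, this]
      exact infinite_univ
    let a := (wellFounded_lt (α := Om)).min _ hex
    have ha : {n | (w n).1 ≤ a}.Infinite := (wellFounded_lt (α := Om)).min_mem _ hex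
    have ha' : ∀ e < a, {n | (w n).1 ≤ e}.Finite := by
      intro e he
      by_contra h
      exact (wellFounded_lt (α := Om)).not_lt_min {a : Om | {n | (w n).1 ≤ a}.Infinite} h he
    haveI hne : (cofinite ⊓ 𝓟 {n | (w n).1 ≤ a}).NeBot := by
      rw [← frequently_mem_iff_neBot, frequently_cofinite_iff_infinite]
      exact ha
    let U : Ultrafilter ℕ := Ultrafilter.of (cofinite ⊓ 𝓟 {n | (w n).1 ≤ a})
    have hU : (U : Filter ℕ) ≤ cofinite ⊓ 𝓟 {n | (w n).1 ≤ a} := Ultrafilter.of_le _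
    have hUc : (U : Filter ℕ) ≤ cofinite := hU.trans inf_le_left
    have hUa : ∀ᶠ n in (U : Filter ℕ), (w n).1 ≤ a := (hU.trans inf_le_right) (mem_principal_self _)
    obtain ⟨y, -, hy⟩ := isCompact_univ.ultrafilter_le_nhds (U.map fun n => f a (w n).1 (w n).2)
      (by simp)
    have hy' : Tendsto (fun n => f a (w n).1 (w n).2) (U : Filter ℕ) (𝓝 y) := hy
    have hlim : Tendsto (fun n => (z n).1) (U : Filter ℕ) (𝓝 (⟨ev f (a, y), (a, y), rfl⟩ : range (ev f))) := by
      rw [tendsto_subtype_rng, tendsto_subtype_rng, tendsto_pi_nhds]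
      intro v
      obtain ⟨d, hd⟩ := exists_bound v
      have hd' : v.1 ∈ Sv f (max a d) := Sv_mono (le_max_right _ _) hd
      have h1 : ∀ᶠ n in (U : Filter ℕ), v.1 (w n) = v.1 (a, f a (w n).1 (w n).2) := by
        by_cases hbot : ∃ b, b < a
        · obtain ⟨e, he, h2⟩ := (ev_iff hbot).1 (hd'.2.2.2 a (le_max_left _ _))
          have h3 : ∀ᶠ n in (U : Filter ℕ), ¬ (w n).1 ≤ e := hUc (ha' e he).compl_mem_cofinite
          filter_upwards [hUa, h3] with n h4 h5
          rcases lt_or_eq_of_le h4 with h6 | h6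
          · exact h2 (w n).1 (not_le.1 h5) h6 (w n).2
          · have : w n = (a, (w n).2) := Prod.ext h6 rfl
            rw [this]
            simp only
            rw [(hcoh a).2.1]
            rfl
        · push Not at hbot
          filter_upwards [hUa] with n h4
          have h6 : (w n).1 = a := le_antisymm h4 (hbot _)
          have : w n = (a, (w n).2) := Prod.ext h6 rfl
          rw [this]
          simp only
          rw [(hcoh a).2.1]
          rfl
      have h2 : ∀ᶠ n in (U : Filter ℕ), v.1 (a, f a (w n).1 (w n).2) = v.1 (a, y) := by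
        have h3 : Tendsto (fun n => v.1 (a, f a (w n).1 (w n).2)) (U : Filter ℕ) (𝓝 (v.1 (a, y))) :=
          ((hd.1 a).tendsto y).comp hy'
        rw [nhds_discrete] at h3
        have h4 : ∀ᶠ n in (U : Filter ℕ),
            v.1 (a, f a (w n).1 (w n).2) ∈ ({v.1 (a, y)} : Set Bool) := h3 (mem_pure.2 rfl)
        exact h4
      refine tendsto_const_nhds.congr' ?_
      filter_upwards [h1, h2] with n h3 h4
      show (if v.1 (a, y) then (1 : ℝ) else 0) = (z n).1.1.1 v
      rw [← hwz n]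
      show (if v.1 (a, y) then (1 : ℝ) else 0) = (if v.1 (w n) then (1 : ℝ) else 0)
      rw [h3, h4]
    refine ⟨⟨ev f (a, y), (a, y), rfl⟩, ?_⟩
    · rw [accPt_iff_nhds]
      intro O hO
      have h1 : ∀ᶠ n in (U : Filter ℕ), (z n).1 ∈ O := hlim hO
      have h2 : ∀ᶠ n in (U : Filter ℕ), (z n).1 ≠ (⟨ev f (a, y), (a, y), rfl⟩ : range (ev f)) := by
        by_cases hm : ∃ m, (z m).1 = (⟨ev f (a, y), (a, y), rfl⟩ : range (ev f))
        · obtain ⟨m, hm⟩ := hm
          have : ∀ᶠ n in cofinite, n ≠ m := by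
            rw [eventually_cofinite]; simp
          filter_upwards [hUc this] with n hn h
          exact hn (z.injective (Subtype.ext (h.trans hm.symm)))
        · push Not at hm
          exact Eventually.of_forall hm
      obtain ⟨n, h3, h4⟩ := (Eventually.and h1 h2).exists
      exact ⟨(z n).1, ⟨h3, (z n).2⟩, h4⟩
  have hcomp := hG (range (ev f)) univ hcc
  rw [closure_univ] at hcomp
  have hcomp2 : IsCompact (range (ev f)) := by
    rw [isCompact_iff_isCompact_univ]
    exact hcomp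
  have hclosed := hcomp2.isClosed
  have hz : zero f ∈ closure (range (ev f)) := by
    have ht : Tendsto (fun x : Om => ev f (x, fun _ => false)) atTop (𝓝 (zero f)) := by
      rw [tendsto_subtype_rng, tendsto_pi_nhds]
      intro v
      obtain ⟨d, hd⟩ := exists_bound v
      refine tendsto_const_nhds.congr' ?_
      obtain ⟨d', hd'⟩ := exists_gt' d
      filter_upwards [eventually_ge_atTop d'] with x hx
      show (0 : ℝ) = (if v.1 (x, fun _ => false) then (1 : ℝ) else 0)
      rw [hd.2.2.1 x (hd'.trans_le hx)]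
      simp
    exact mem_closure_of_tendsto ht (Eventually.of_forall fun x => mem_range_self _)
  rw [hclosed.closure_eq] at hz
  obtain ⟨w, hw⟩ := hz
  obtain ⟨v, hv⟩ := exists_true hcoh w
  have h1 : (ev f w).1 v = (zero f).1 v := by rw [hw]
  have h2 : (if v.1 w then (1 : ℝ) else 0) = 0 := h1
  rw [hv] at h2
  simp at h2

end

/-- Under Jensen's principle diamond there is a Lindelöf `ω`-stable Tychonoff space of countable
tightness which is not a Grothendieck space. -/
theorem result : DiamondOmegaOne → ∃ (X : Type) (_ : TopologicalSpace X), T35Space X ∧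
    LindelofSpace X ∧ OmegaStable X ∧ CountablyTight X ∧ ¬ Grothendieck X := by
  intro h
  obtain ⟨f, hcoh, hcov⟩ := main_core (diamond_transfer h)
  exact ⟨XX f, inferInstance, inferInstance, lindelof_XX hcov, stable_XX hcov, tight_XX f,
    notGrothendieck_XX hcoh⟩

end Pool.Agent.Results.MP_7e7dde_gt.LindelofNotGrothendieck
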